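import Mathlib
import Pool.Agent.H16.Overlap

set_option autoImplicit false

namespace Pool.Agent.Results.MP_81fdd0_co.Counter

open Pool.Agent.H16.Overlap

theorem result : ∃ V : Set (List (Fin 3 × Bool)), Admissible V ∧ (OG V).CliqueFree 3 ∧
    ∀ N : ℕ, ¬ (OGbar V).CliqueFree N :=
  ⟨V0, adm, free3, big⟩

end Pool.Agent.Results.MP_81fdd0_co.Counter
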